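import Pool.Agent.Lib.MP_b40757_lc.Final

set_option autoImplicit false

namespace Pool.Agent.Results.MP_b40757_lc.Halting

open Pool.Agent.Lib.MP_b40757_lc

/-- For every deletion number `ν > 2` the halting problem for the class `T(2,ν)` of binary tag
systems is undecidable, in both usual conventions; there is even a single system
(with rules `0 ↦ 0`, `1 ↦ v`) with undecidable halting problem. -/
theorem result (ν : ℕ) (hν : 2 < ν) :
    (¬ ComputablePred fun x : (List Bool × List Bool) × List Bool =>
      Halts ν x.1.1 x.1.2 x.2) ∧
    (¬ ComputablePred fun x : (List Bool × List Bool) × List Bool =>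
      PostReach ν x.1.1 x.1.2 x.2 []) ∧
    ∃ v : List Bool, (¬ ComputablePred fun S : List Bool => Halts ν [false] v S) ∧
      ¬ ComputablePred fun S : List Bool => PostReach ν [false] v S [] :=
  halting ν hν

end Pool.Agent.Results.MP_b40757_lc.Halting
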