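import Pool.Agent.Lib.MP_b40757_lc.Final

set_option autoImplicit false

namespace Pool.Agent.Results.MP_b40757_lc.Reachability

open Pool.Agent.Lib.MP_b40757_lc

/-- For every deletion number `ν > 2` the reachability problem for the class `T(2,ν)` of binary tag
systems is undecidable, even for a single system and the single target word `0 ^ (ν - 1)`. -/
theorem result (ν : ℕ) (hν : 2 < ν) :
    (¬ ComputablePred fun x : (List Bool × List Bool) × (List Bool × List Bool) =>
      Reach ν x.1.1 x.1.2 x.2.1 x.2.2) ∧
    ∃ v : List Bool, ¬ ComputablePred fun S : List Bool =>
      Reach ν [false] v S (List.replicate (ν - 1) false) :=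
  reachability ν hν

end Pool.Agent.Results.MP_b40757_lc.Reachability
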